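import Mathlib

open MeasureTheory Set

namespace Pool.Agent.Results.MP_68eddd_an.No

/-- An interval `I = [lo, hi]`, finitely many subintervals `I_α = [l α, r α]` and matrices
`M_α = (a b; c d)`. -/
structure Data (n : ℕ) where
  lo : ℝ
  hi : ℝ
  l : Fin n → ℝ
  r : Fin n → ℝ
  a : Fin n → ℝ
  b : Fin n → ℝ
  c : Fin n → ℝ
  d : Fin n → ℝ

variable {n : ℕ}

def Data.I (D : Data n) : Set ℝ := Icc D.lo D.hi
def Data.J (D : Data n) (i : Fin n) : Set ℝ := Icc (D.l i) (D.r i)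

/-- The branch `T_α`. -/
noncomputable def Data.T (D : Data n) (i : Fin n) (x : ℝ) : ℝ :=
  (D.a i * x + D.b i) / (D.c i * x + D.d i)

/-- The planar branch `T̃_α`. -/
noncomputable def Data.Tt (D : Data n) (i : Fin n) (z : ℝ × ℝ) : ℝ × ℝ :=
  (D.T i z.1, (D.c i * z.1 + D.d i) ^ 2 * z.2 - D.c i * (D.c i * z.1 + D.d i))

/-- All standing hypotheses of the problem on the data. -/
def Data.Good (D : Data n) : Prop :=
  D.lo < D.hi ∧ (∀ i, D.l i < D.r i) ∧ (⋃ i, D.J i) = D.I ∧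
  (∀ i j, i ≠ j → volume (D.J i ∩ D.J j) = 0) ∧
  (∀ i, D.a i * D.d i - D.b i * D.c i = 1) ∧ (∀ i, 0 ≤ D.c i) ∧
  (∀ i, ∀ x ∈ D.J i, D.c i * x + D.d i ≠ 0) ∧ (∀ i, MapsTo (D.T i) (D.J i) D.I) ∧
  (⋃ i, D.T i '' D.J i) = D.I ∧
  (∃ k < 1, ∀ i, ∀ x ∈ D.J i, (D.c i * x + D.d i) ^ 2 ≤ k) ∧
  (∃ M, ∀ i, ∀ x ∈ D.J i, |D.c i * (D.c i * x + D.d i)| ≤ M)

/-- `T̃(K) = ⋃_α T̃_α(K ∩ (I_α × ℝ))`. -/
def Data.img (D : Data n) (K : Set (ℝ × ℝ)) : Set (ℝ × ℝ) :=
  ⋃ i, D.Tt i '' (K ∩ D.J i ×ˢ univ)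

/-- `K` is the compact set projecting onto `I` with `K = closure (T̃(K))`. -/
def Data.IsK (D : Data n) (K : Set (ℝ × ℝ)) : Prop :=
  IsCompact K ∧ Prod.fst '' K = D.I ∧ K = closure (D.img K)

noncomputable def D : Data 4 where
  lo := -1
  hi := 1
  l := ![-1, -1 / 2, 0, 1 / 2]
  r := ![-1 / 2, 0, 1 / 2, 1]
  a := ![-10 / 7, 40 / 21, -40 / 21, 10 / 7]
  b := ![-5 / 7, 20 / 21, 20 / 21, -5 / 7]
  c := ![1 / 35, 359 / 420, 359 / 420, 1 / 35]
  d := ![-24 / 35, 20 / 21, -20 / 21, 24 / 35]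

noncomputable def Φ (z : ℝ × ℝ) : ℝ × ℝ := (z.1, (z.1 - z.2)⁻¹)

def S : Set (ℝ × ℝ) :=
  (Icc 0 1 ×ˢ Icc (16 / 7) 25 ∪ Icc 1 1 ×ˢ Icc (325 / 178) (272 / 125)) ∪
  (Icc (-1) 0 ×ˢ Icc (-25) (-16 / 7) ∪ Icc (-1) (-1) ×ˢ Icc (-272 / 125) (-325 / 178))

lemma det (i : Fin 4) : D.a i * D.d i - D.b i * D.c i = 1 := by
  fin_cases i <;> simp [D] <;> norm_num

lemma conj (i : Fin 4) {x u : ℝ} (hx : D.c i * x + D.d i ≠ 0) (hu : D.c i * u + D.d i ≠ 0)
    (h : x - u ≠ 0) : D.Tt i (Φ (x, u)) = Φ (D.T i x, D.T i u) := by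
  have hd := det i
  have e : D.T i x - D.T i u = (x - u) / ((D.c i * x + D.d i) * (D.c i * u + D.d i)) := by
    unfold Data.T
    rw [div_sub_div _ _ hx hu]
    congr 1
    linear_combination (x - u) * hd
  simp only [Data.Tt, Φ, e, inv_div]
  congr 1
  field_simp
  ring

lemma fr {N E l r : ℝ} (h : (0 < E ∧ l * E ≤ N ∧ N ≤ r * E) ∨ (E < 0 ∧ N ≤ l * E ∧ r * E ≤ N)) :
    l ≤ N / E ∧ N / E ≤ r := by
  rcases h with ⟨h0, h1, h2⟩ | ⟨h0, h1, h2⟩
  · exact ⟨(le_div_iff₀ h0).2 h1, (div_le_iff₀ h0).2 h2⟩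
  · exact ⟨(le_div_iff_of_neg h0).2 h1, (div_le_iff_of_neg h0).2 h2⟩

lemma S_iff {x u : ℝ} : (x, u) ∈ S ↔
    (((0 ≤ x ∧ x ≤ 1) ∧ (16 / 7 ≤ u ∧ u ≤ 25)) ∨
      ((1 ≤ x ∧ x ≤ 1) ∧ (325 / 178 ≤ u ∧ u ≤ 272 / 125))) ∨
    (((-1 ≤ x ∧ x ≤ 0) ∧ (-25 ≤ u ∧ u ≤ -16 / 7)) ∨
      ((-1 ≤ x ∧ x ≤ -1) ∧ (-272 / 125 ≤ u ∧ u ≤ -325 / 178))) := Iff.rfl

lemma den (i : Fin 4) {x : ℝ} (hx : x ∈ D.J i) : D.c i * x + D.d i ≠ 0 := by
  fin_cases i <;> simp [D, Data.J] at hx ⊢ <;> intro h <;> linarith [hx.1, hx.2]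

lemma S_ne {x u : ℝ} (h : (x, u) ∈ S) : x - u ≠ 0 := by
  intro e
  rcases S_iff.1 h with (⟨h1, h2⟩ | ⟨h1, h2⟩) | (⟨h1, h2⟩ | ⟨h1, h2⟩) <;>
    linarith [h1.1, h1.2, h2.1, h2.2]

lemma fwd (i : Fin 4) {x u : ℝ} (h : (x, u) ∈ S) (hx : x ∈ D.J i) :
    D.c i * u + D.d i ≠ 0 ∧ (D.T i x, D.T i u) ∈ S := by
  rw [S_iff]
  rcases S_iff.1 h with (⟨⟨h1, h2⟩, h3, h4⟩ | ⟨⟨h1, h2⟩, h3, h4⟩) |
    (⟨⟨h1, h2⟩, h3, h4⟩ | ⟨⟨h1, h2⟩, h3, h4⟩) <;>
  fin_cases i <;> simp only [D, Data.J, Data.T] at hx ⊢ <;> simp at hx ⊢ <;>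
  obtain ⟨h5, h6⟩ := hx <;>
  first
    | (exfalso; linarith)
    | (refine ⟨fun h => by linarith, ?_⟩
       first
        | exact Or.inl (Or.inl ⟨by (refine fr ?_; first | exact Or.inl ⟨by linarith, by linarith, by linarith⟩ | exact Or.inr ⟨by linarith, by linarith, by linarith⟩), by (refine fr ?_; first | exact Or.inl ⟨by linarith, by linarith, by linarith⟩ | exact Or.inr ⟨by linarith, by linarith, by linarith⟩)⟩)
        | exact Or.inl (Or.inr ⟨by (refine fr ?_; first | exact Or.inl ⟨by linarith, by linarith, by linarith⟩ | exact Or.inr ⟨by linarith, by linarith, by linarith⟩), by (refine fr ?_; first | exact Or.inl ⟨by linarith, by linarith, by linarith⟩ | exact Or.inr ⟨by linarith, by linarith, by linarith⟩)⟩)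
        | exact Or.inr (Or.inl ⟨by (refine fr ?_; first | exact Or.inl ⟨by linarith, by linarith, by linarith⟩ | exact Or.inr ⟨by linarith, by linarith, by linarith⟩), by (refine fr ?_; first | exact Or.inl ⟨by linarith, by linarith, by linarith⟩ | exact Or.inr ⟨by linarith, by linarith, by linarith⟩)⟩)
        | exact Or.inr (Or.inr ⟨by (refine fr ?_; first | exact Or.inl ⟨by linarith, by linarith, by linarith⟩ | exact Or.inr ⟨by linarith, by linarith, by linarith⟩), by (refine fr ?_; first | exact Or.inl ⟨by linarith, by linarith, by linarith⟩ | exact Or.inr ⟨by linarith, by linarith, by linarith⟩)⟩))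

lemma inv_T (i : Fin 4) {z : ℝ} (h : -D.c i * z + D.a i ≠ 0) :
    D.T i ((D.d i * z - D.b i) / (-D.c i * z + D.a i)) = z := by
  have hd := det i
  unfold Data.T
  have e1 : D.c i * ((D.d i * z - D.b i) / (-D.c i * z + D.a i)) + D.d i
      = (-D.c i * z + D.a i)⁻¹ := by
    rw [← one_div, eq_div_iff h, add_mul, mul_assoc, div_mul_cancel₀ _ h]
    linear_combination hd
  have e2 : D.a i * ((D.d i * z - D.b i) / (-D.c i * z + D.a i)) + D.b i
      = z * (-D.c i * z + D.a i)⁻¹ := by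
    rw [← div_eq_mul_inv, eq_div_iff h, add_mul, mul_assoc, div_mul_cancel₀ _ h]
    linear_combination z * hd
  rw [e1, e2, mul_div_assoc, div_self (inv_ne_zero h), mul_one]

lemma pre (i : Fin 4) {z w : ℝ} (h1 : -D.c i * z + D.a i ≠ 0) (h2 : -D.c i * w + D.a i ≠ 0)
    (h3 : (D.d i * z - D.b i) / (-D.c i * z + D.a i) ∈ D.J i)
    (h4 : ((D.d i * z - D.b i) / (-D.c i * z + D.a i),
      (D.d i * w - D.b i) / (-D.c i * w + D.a i)) ∈ S) :
    ∃ i x u, (x, u) ∈ S ∧ x ∈ D.J i ∧ D.T i x = z ∧ D.T i u = w :=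
  ⟨i, _, _, h4, h3, inv_T i h1, inv_T i h2⟩

lemma bwd {z w : ℝ} (h : (z, w) ∈ S) :
    ∃ i x u, (x, u) ∈ S ∧ x ∈ D.J i ∧ D.T i x = z ∧ D.T i u = w := by
  rcases S_iff.1 h with (⟨⟨h1, h2⟩, h3, h4⟩ | ⟨⟨h1, h2⟩, h3, h4⟩) |
    (⟨⟨h1, h2⟩, h3, h4⟩ | ⟨⟨h1, h2⟩, h3, h4⟩)
  · rcases le_total w (625 / 184) with h5 | h5
    · refine pre 1 ?_ ?_ ?_ ?_
      · simp [D]; intro h; linarith
      · simp [D]; intro h; linarith
      · simp only [D, Data.J, mem_Icc]; simp; (refine fr ?_; first | exact Or.inl ⟨by linarith, by linarith, by linarith⟩ | exact Or.inr ⟨by linarith, by linarith, by linarith⟩)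
      · rw [S_iff]; simp only [D]; simp
        first
          | exact Or.inl (Or.inl ⟨by (refine fr ?_; first | exact Or.inl ⟨by linarith, by linarith, by linarith⟩ | exact Or.inr ⟨by linarith, by linarith, by linarith⟩), by (refine fr ?_; first | exact Or.inl ⟨by linarith, by linarith, by linarith⟩ | exact Or.inr ⟨by linarith, by linarith, by linarith⟩)⟩)
          | exact Or.inr (Or.inl ⟨by (refine fr ?_; first | exact Or.inl ⟨by linarith, by linarith, by linarith⟩ | exact Or.inr ⟨by linarith, by linarith, by linarith⟩), by (refine fr ?_; first | exact Or.inl ⟨by linarith, by linarith, by linarith⟩ | exact Or.inr ⟨by linarith, by linarith, by linarith⟩)⟩)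
    · refine pre 3 ?_ ?_ ?_ ?_
      · simp [D]; intro h; linarith
      · simp [D]; intro h; linarith
      · simp only [D, Data.J, mem_Icc]; simp; (refine fr ?_; first | exact Or.inl ⟨by linarith, by linarith, by linarith⟩ | exact Or.inr ⟨by linarith, by linarith, by linarith⟩)
      · rw [S_iff]; simp only [D]; simp
        first
          | exact Or.inl (Or.inl ⟨by (refine fr ?_; first | exact Or.inl ⟨by linarith, by linarith, by linarith⟩ | exact Or.inr ⟨by linarith, by linarith, by linarith⟩), by (refine fr ?_; first | exact Or.inl ⟨by linarith, by linarith, by linarith⟩ | exact Or.inr ⟨by linarith, by linarith, by linarith⟩)⟩)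
          | exact Or.inr (Or.inl ⟨by (refine fr ?_; first | exact Or.inl ⟨by linarith, by linarith, by linarith⟩ | exact Or.inr ⟨by linarith, by linarith, by linarith⟩), by (refine fr ?_; first | exact Or.inl ⟨by linarith, by linarith, by linarith⟩ | exact Or.inr ⟨by linarith, by linarith, by linarith⟩)⟩)
  · refine pre 1 ?_ ?_ ?_ ?_
    · simp [D]; intro h; linarith
    · simp [D]; intro h; linarith
    · simp only [D, Data.J, mem_Icc]; simp; (refine fr ?_; first | exact Or.inl ⟨by linarith, by linarith, by linarith⟩ | exact Or.inr ⟨by linarith, by linarith, by linarith⟩)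
    · rw [S_iff]; simp only [D]; simp
      first
        | exact Or.inl (Or.inl ⟨by (refine fr ?_; first | exact Or.inl ⟨by linarith, by linarith, by linarith⟩ | exact Or.inr ⟨by linarith, by linarith, by linarith⟩), by (refine fr ?_; first | exact Or.inl ⟨by linarith, by linarith, by linarith⟩ | exact Or.inr ⟨by linarith, by linarith, by linarith⟩)⟩)
        | exact Or.inr (Or.inl ⟨by (refine fr ?_; first | exact Or.inl ⟨by linarith, by linarith, by linarith⟩ | exact Or.inr ⟨by linarith, by linarith, by linarith⟩), by (refine fr ?_; first | exact Or.inl ⟨by linarith, by linarith, by linarith⟩ | exact Or.inr ⟨by linarith, by linarith, by linarith⟩)⟩)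
  · rcases le_total w (-625 / 184) with h5 | h5
    · refine pre 0 ?_ ?_ ?_ ?_
      · simp [D]; intro h; linarith
      · simp [D]; intro h; linarith
      · simp only [D, Data.J, mem_Icc]; simp; (refine fr ?_; first | exact Or.inl ⟨by linarith, by linarith, by linarith⟩ | exact Or.inr ⟨by linarith, by linarith, by linarith⟩)
      · rw [S_iff]; simp only [D]; simp
        first
          | exact Or.inl (Or.inl ⟨by (refine fr ?_; first | exact Or.inl ⟨by linarith, by linarith, by linarith⟩ | exact Or.inr ⟨by linarith, by linarith, by linarith⟩), by (refine fr ?_; first | exact Or.inl ⟨by linarith, by linarith, by linarith⟩ | exact Or.inr ⟨by linarith, by linarith, by linarith⟩)⟩)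
          | exact Or.inr (Or.inl ⟨by (refine fr ?_; first | exact Or.inl ⟨by linarith, by linarith, by linarith⟩ | exact Or.inr ⟨by linarith, by linarith, by linarith⟩), by (refine fr ?_; first | exact Or.inl ⟨by linarith, by linarith, by linarith⟩ | exact Or.inr ⟨by linarith, by linarith, by linarith⟩)⟩)
    · refine pre 2 ?_ ?_ ?_ ?_
      · simp [D]; intro h; linarith
      · simp [D]; intro h; linarith
      · simp only [D, Data.J, mem_Icc]; simp; (refine fr ?_; first | exact Or.inl ⟨by linarith, by linarith, by linarith⟩ | exact Or.inr ⟨by linarith, by linarith, by linarith⟩)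
      · rw [S_iff]; simp only [D]; simp
        first
          | exact Or.inl (Or.inl ⟨by (refine fr ?_; first | exact Or.inl ⟨by linarith, by linarith, by linarith⟩ | exact Or.inr ⟨by linarith, by linarith, by linarith⟩), by (refine fr ?_; first | exact Or.inl ⟨by linarith, by linarith, by linarith⟩ | exact Or.inr ⟨by linarith, by linarith, by linarith⟩)⟩)
          | exact Or.inr (Or.inl ⟨by (refine fr ?_; first | exact Or.inl ⟨by linarith, by linarith, by linarith⟩ | exact Or.inr ⟨by linarith, by linarith, by linarith⟩), by (refine fr ?_; first | exact Or.inl ⟨by linarith, by linarith, by linarith⟩ | exact Or.inr ⟨by linarith, by linarith, by linarith⟩)⟩)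
  · refine pre 2 ?_ ?_ ?_ ?_
    · simp [D]; intro h; linarith
    · simp [D]; intro h; linarith
    · simp only [D, Data.J, mem_Icc]; simp; (refine fr ?_; first | exact Or.inl ⟨by linarith, by linarith, by linarith⟩ | exact Or.inr ⟨by linarith, by linarith, by linarith⟩)
    · rw [S_iff]; simp only [D]; simp
      first
        | exact Or.inl (Or.inl ⟨by (refine fr ?_; first | exact Or.inl ⟨by linarith, by linarith, by linarith⟩ | exact Or.inr ⟨by linarith, by linarith, by linarith⟩), by (refine fr ?_; first | exact Or.inl ⟨by linarith, by linarith, by linarith⟩ | exact Or.inr ⟨by linarith, by linarith, by linarith⟩)⟩)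
        | exact Or.inr (Or.inl ⟨by (refine fr ?_; first | exact Or.inl ⟨by linarith, by linarith, by linarith⟩ | exact Or.inr ⟨by linarith, by linarith, by linarith⟩), by (refine fr ?_; first | exact Or.inl ⟨by linarith, by linarith, by linarith⟩ | exact Or.inr ⟨by linarith, by linarith, by linarith⟩)⟩)

lemma img_eq : D.img (Φ '' S) = Φ '' S := by
  ext z
  simp only [Data.img, mem_iUnion]
  constructor
  · rintro ⟨i, _, ⟨⟨⟨x, u⟩, hS, rfl⟩, hx, -⟩, rfl⟩
    have hx' : x ∈ D.J i := hx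
    obtain ⟨h1, h2⟩ := fwd i hS hx'
    exact ⟨_, h2, (conj i (den i hx') h1 (S_ne hS)).symm⟩
  · rintro ⟨⟨z, w⟩, hS, rfl⟩
    obtain ⟨i, x, u, h1, h2, rfl, rfl⟩ := bwd hS
    exact ⟨i, Φ (x, u), ⟨⟨_, h1, rfl⟩, h2, trivial⟩,
      conj i (den i h2) (fwd i h1 h2).1 (S_ne h1)⟩

lemma cpt : IsCompact (Φ '' S) := by
  have hS : IsCompact S := ((isCompact_Icc.prod isCompact_Icc).union
    (isCompact_Icc.prod isCompact_Icc)).union
    ((isCompact_Icc.prod isCompact_Icc).union (isCompact_Icc.prod isCompact_Icc))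
  refine hS.image_of_continuousOn (continuousOn_fst.prodMk ?_)
  exact (continuousOn_fst.sub continuousOn_snd).inv₀ fun z hz => S_ne hz

lemma T_img (i : Fin 4) : D.T i '' D.J i = ![Icc (-1) 0, Icc 0 1, Icc (-1) 0, Icc 0 1] i := by
  ext z
  constructor
  · rintro ⟨x, hx, rfl⟩
    fin_cases i <;> simp only [D, Data.J, Data.T] at hx ⊢ <;> simp at hx ⊢ <;>
      obtain ⟨h5, h6⟩ := hx <;> (refine fr ?_; first | exact Or.inl ⟨by linarith, by linarith, by linarith⟩ | exact Or.inr ⟨by linarith, by linarith, by linarith⟩)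
  · intro hz
    refine ⟨_, ?_, inv_T i ?_⟩
    · fin_cases i <;> simp only [D, Data.J] at hz ⊢ <;> simp at hz ⊢ <;>
        obtain ⟨h5, h6⟩ := hz <;> (refine fr ?_; first | exact Or.inl ⟨by linarith, by linarith, by linarith⟩ | exact Or.inr ⟨by linarith, by linarith, by linarith⟩)
    · fin_cases i <;> simp [D] at hz ⊢ <;> intro h <;> linarith [hz.1, hz.2]

lemma good : D.Good := by
  refine ⟨by simp [D], fun i => ?_, ?_, fun i j hij => ?_, det, fun i => ?_,
    fun i x hx => den i hx, fun i => ?_, ?_, ⟨400 / 441, by norm_num, fun i x hx => ?_⟩,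
    ⟨1, fun i x hx => ?_⟩⟩
  · fin_cases i <;> simp [D] <;> norm_num
  · ext x
    simp only [mem_iUnion, Data.I, Data.J, mem_Icc, Fin.exists_fin_succ]
    simp [D]
    constructor
    · rintro (h | h | h | h) <;> constructor <;> linarith [h.1, h.2]
    · rintro ⟨h1, h2⟩
      rcases le_total x (-1 / 2) with h3 | h3
      · exact Or.inl ⟨h1, h3⟩
      rcases le_total x 0 with h4 | h4
      · exact Or.inr (Or.inl ⟨h3, h4⟩)
      rcases le_total x 2⁻¹ with h5 | h5
      · exact Or.inr (Or.inr (Or.inl ⟨h4, h5⟩))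
      · exact Or.inr (Or.inr (Or.inr ⟨h5, h2⟩))
  · simp only [Data.J, Icc_inter_Icc, Real.volume_Icc, ENNReal.ofReal_eq_zero]
    fin_cases i <;> fin_cases j <;> simp [D] at hij ⊢ <;> norm_num
  · fin_cases i <;> simp [D] <;> norm_num
  · rw [mapsTo_iff_image_subset, T_img]
    fin_cases i <;> simp [D, Data.I] <;> exact Icc_subset_Icc (by norm_num) (by norm_num)
  · simp only [T_img]
    ext x
    simp only [mem_iUnion, Data.I, Fin.exists_fin_succ]
    simp [D]
    constructor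
    · rintro (h | h | h | h) <;> constructor <;> linarith [h.1, h.2]
    · rintro ⟨h1, h2⟩
      rcases le_total x 0 with h4 | h4
      · exact Or.inl ⟨h1, h4⟩
      · exact Or.inr (Or.inl ⟨h4, h2⟩)
  · fin_cases i <;> simp [D, Data.J] at hx ⊢ <;> nlinarith [hx.1, hx.2]
  · rw [abs_le]
    fin_cases i <;> simp [D, Data.J] at hx ⊢ <;> constructor <;> linarith [hx.1, hx.2]

theorem result : ∃ (n : ℕ) (D : Data n) (K : Set (ℝ × ℝ)), D.Good ∧ D.IsK K ∧ 0 < volume K ∧
    volume (K \ D.img K) = 0 ∧ ¬ IsPreconnected K ∧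
    ∀ i j, ∃ k, D.J k ⊆ D.T i '' D.J i ∧ D.J j ⊆ D.T k '' D.J k := by
  refine ⟨4, D, Φ '' S, good, ⟨cpt, ?_, ?_⟩, ?_, ?_, ?_, fun i j => ?_⟩
  · ext x
    simp only [image_image, Φ, Data.I, D, mem_image, mem_Icc]
    constructor
    · rintro ⟨⟨y, u⟩, h, rfl⟩
      rcases S_iff.1 h with (⟨h1, h2⟩ | ⟨h1, h2⟩) | (⟨h1, h2⟩ | ⟨h1, h2⟩) <;>
        constructor <;> linarith [h1.1, h1.2]
    · rintro ⟨h1, h2⟩
      rcases le_total x 0 with h | h
      · exact ⟨(x, -3), S_iff.2 (Or.inr (Or.inl ⟨⟨h1, h⟩, by norm_num, by norm_num⟩)), rfl⟩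
      · exact ⟨(x, 3), S_iff.2 (Or.inl (Or.inl ⟨⟨h, h2⟩, by norm_num, by norm_num⟩)), rfl⟩
  · rw [img_eq, cpt.isClosed.closure_eq]
  · have hsub : Icc (0 : ℝ) 1 ×ˢ Icc (-1 / 3 : ℝ) (-1 / 6) ⊆ Φ '' S := by
      rintro ⟨x, y⟩ ⟨⟨h1, h2⟩, h3, h4⟩
      simp only at h1 h2 h3 h4
      have h5 : (-6 : ℝ) ≤ 1 / y ∧ 1 / y ≤ -3 := by (refine fr ?_; first | exact Or.inl ⟨by linarith, by linarith, by linarith⟩ | exact Or.inr ⟨by linarith, by linarith, by linarith⟩)
      refine ⟨(x, x - 1 / y), S_iff.2 (Or.inl (Or.inl ⟨⟨h1, h2⟩, ?_, ?_⟩)), ?_⟩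
      · linarith [h5.2]
      · linarith [h5.1]
      · simp [Φ]
    refine lt_of_lt_of_le ?_ (measure_mono hsub)
    rw [Measure.volume_eq_prod, Measure.prod_prod, Real.volume_Icc, Real.volume_Icc]
    refine ENNReal.mul_pos ?_ ?_ <;> simp <;> norm_num
  · rw [img_eq, sdiff_self, measure_empty]
  · intro h
    have h2 := (h.image Prod.snd continuous_snd.continuousOn).Icc_subset
      (a := (0 - 3 : ℝ)⁻¹) (b := (0 - -3 : ℝ)⁻¹)
      ⟨_, ⟨(0, 3), S_iff.2 (Or.inl (Or.inl (by norm_num))), rfl⟩, rfl⟩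
      ⟨_, ⟨(0, -3), S_iff.2 (Or.inr (Or.inl (by norm_num))), rfl⟩, rfl⟩
      (show (0 : ℝ) ∈ _ by norm_num)
    obtain ⟨_, ⟨⟨x, u⟩, hS, rfl⟩, h0⟩ := h2
    exact inv_ne_zero (S_ne hS) h0
  · refine ⟨![![0, 0, 1, 1], ![2, 2, 3, 3], ![0, 0, 1, 1], ![2, 2, 3, 3]] i j, ?_, ?_⟩ <;>
    rw [T_img] <;> fin_cases i <;> fin_cases j <;> simp only [D, Data.J] <;>
    exact Icc_subset_Icc (by first | (simp; done) | (simp; norm_num))
      (by first | (simp; done) | (simp; norm_num))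

end Pool.Agent.Results.MP_68eddd_an.No
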